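import Pool.Agent.N9.P24x.BilE
import Pool.Agent.N877.P24.Bil

/-!
# P24x: the bilinear identity for odd discriminants divisible by three
-/

set_option autoImplicit false

namespace Pool.Agent.N9.P24x

open Finset Matrix
open Pool.Agent.Z700 (V3 vec cp hh fac chi12 S_PC)
open Pool.Agent.N877.P24

/-- no pairs with even inner product -/
theorem cp_even {n : ℕ} (hn : n % 8 = 3) {b : ℤ} (hb : b % 2 = 0) : cp n b n = 0 := by
  unfold cp
  rw [Finset.card_eq_zero, Finset.filter_eq_empty_iff]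
  intro q hq h
  rw [mem_product] at hq
  have o1 := odd_vec (n := (n : ℤ)) (by omega) hq.1
  have o2 := odd_vec (n := (n : ℤ)) (by omega) hq.2
  rw [dot3] at h
  have m0 : (q.1 0 * q.2 0) % 2 = 1 := by rw [Int.mul_emod, o1.1, o2.1]; rfl
  have m1 : (q.1 1 * q.2 1) % 2 = 1 := by rw [Int.mul_emod, o1.2.1, o2.2.1]; rfl
  have m2 : (q.1 2 * q.2 2) % 2 = 1 := by rw [Int.mul_emod, o1.2.2, o2.2.2]; rfl
  omega

theorem kk2_odd {n : ℕ} (hn : n % 8 = 3) (b : ℤ) :
    kk2 n n b = if (32 : ℤ) ∣ n * n - b ^ 2 then 1 else 0 := by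
  unfold kk2
  rw [if_pos ⟨hn, hn⟩]

/-- the value for one inner product -/
theorem val (hPC : S_PC) {n : ℕ} (hsq : Squarefree n) (hn : n % 8 = 3) {b : ℤ} (hb : b % 2 = 1)
    (hD : 0 < (n : ℤ) * n - b ^ 2) : (4 * kk2 n n b - 1) * (cp n b n : ℤ) =
      24 * (w2 ((n : ℤ) * n - b ^ 2).toNat * le n ((n : ℤ) * n - b ^ 2).toNat) := by
  have hDD : (((n : ℤ) * n - b ^ 2).toNat : ℤ) = n * n - b ^ 2 := Int.toNat_of_nonneg hD.le
  rw [hPC n n b _ hsq hn hn (Int.odd_iff.2 hb) (by omega) hDD, kk2_odd hn]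
  generalize ((n : ℤ) * n - b ^ 2).toNat = D at *
  rw [← hDD]
  have h8 : 8 ∣ D := by
    have h1 := sq8 (n : ℤ)
    have h2 := sq8 b
    rw [pow_two] at hDD
    generalize (n : ℤ) * n = N at *
    generalize b * b = M at *
    omega
  have hD0 : 0 < D := by omega
  have h32 : (32 : ℤ) ∣ (D : ℤ) ↔ 32 ∣ D := by omega
  have hle : ∏ l ∈ D.primeFactors.erase 2, fac n D l = le n D := rfl
  rw [hle]
  unfold w2
  by_cases hodd : Odd (D.factorization 2)
  · rw [if_pos hodd, if_pos hodd]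
    rcases v2_eq hD0 h8 with h | ⟨h, h'⟩ | ⟨h, h'⟩
    · have h' : ¬ (32 : ℤ) ∣ (D : ℤ) := by
        rw [h32]
        intro h2
        have := (Nat.Prime.pow_dvd_iff_le_factorization Nat.prime_two hD0.ne' (k := 5)).1
          (by simpa using h2)
        omega
      rw [if_pos h, if_neg h']
      ring
    · rw [h] at hodd
      exact absurd hodd (by decide)
    · rw [if_neg (by omega : ¬ D.factorization 2 = 3), if_pos (h32.2 h')]
      ring
  · rw [if_neg hodd, if_neg hodd]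
    ring

/-- from `b` to `T` for the odd classes -/
theorem toT_odd {n : ℕ} (hn : n % 24 = 3) (G : ℕ → ℤ) :
    ∑ b ∈ (Ioo (-((n : ℤ) + 1)) ((n : ℤ) + 1)).filter (fun b : ℤ => ¬ (3 : ℤ) ∣ b ∧ b % 2 = 1),
      G ((n : ℤ) * n - b ^ 2).toNat =
    2 * ∑ T ∈ (range n).filter (fun T => T % 2 = 1 ∧ ¬ 3 ∣ T), G (4 * (n - T) * T) := by
  set I := Ioo (-((n : ℤ) + 1)) ((n : ℤ) + 1) with hI
  have e1 : ∑ b ∈ I.filter (fun b : ℤ => ¬ (3 : ℤ) ∣ b ∧ b % 4 = 1), G ((n : ℤ) * n - b ^ 2).toNat =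
      ∑ T ∈ (range n).filter (fun T => T % 2 = 1 ∧ ¬ 3 ∣ T), G (4 * (n - T) * T) := by
    symm
    refine Finset.sum_nbij' (fun T => (n : ℤ) - 2 * (T : ℤ)) (fun b => ((n - b) / 2).toNat)
      ?_ ?_ ?_ ?_ ?_
    · intro T hT
      rw [Finset.mem_filter, Finset.mem_range] at hT
      rw [hI, Finset.mem_filter, Finset.mem_Ioo]
      refine ⟨⟨by omega, by omega⟩, by omega, by omega⟩
    · intro b hb
      rw [hI, Finset.mem_filter, Finset.mem_Ioo] at hb
      rw [Finset.mem_filter, Finset.mem_range]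
      have hne : b ≠ -(n : ℤ) := by
        rintro rfl
        exact hb.2.1 (by omega)
      omega
    · intro T hT
      rw [Finset.mem_filter, Finset.mem_range] at hT
      omega
    · intro b hb
      rw [hI, Finset.mem_filter, Finset.mem_Ioo] at hb
      omega
    · intro T hT
      rw [Finset.mem_filter, Finset.mem_range] at hT
      have e3 : ((n : ℤ) * n - ((n : ℤ) - 2 * (T : ℤ)) ^ 2).toNat = 4 * (n - T) * T := by
        have : (n : ℤ) * n - ((n : ℤ) - 2 * (T : ℤ)) ^ 2 = ((4 * (n - T) * T : ℕ) : ℤ) := by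
          rw [Nat.cast_mul, Nat.cast_mul, Nat.cast_sub (by omega)]
          push_cast
          ring
        rw [this, Int.toNat_natCast]
      rw [e3]
  have e2 : ∑ b ∈ I.filter (fun b : ℤ => ¬ (3 : ℤ) ∣ b ∧ b % 4 = 3), G ((n : ℤ) * n - b ^ 2).toNat =
      ∑ b ∈ I.filter (fun b : ℤ => ¬ (3 : ℤ) ∣ b ∧ b % 4 = 1), G ((n : ℤ) * n - b ^ 2).toNat := by
    refine Finset.sum_nbij' (fun b => -b) (fun b => -b) ?_ ?_ ?_ ?_ ?_
    · intro b hb
      rw [hI, Finset.mem_filter, Finset.mem_Ioo] at hb ⊢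
      omega
    · intro b hb
      rw [hI, Finset.mem_filter, Finset.mem_Ioo] at hb ⊢
      omega
    · intro b _
      exact neg_neg b
    · intro b _
      exact neg_neg b
    · intro b _
      rw [neg_sq]
  have e3 : ∑ b ∈ I.filter (fun b : ℤ => ¬ (3 : ℤ) ∣ b ∧ b % 2 = 1), G ((n : ℤ) * n - b ^ 2).toNat =
      ∑ b ∈ I.filter (fun b : ℤ => ¬ (3 : ℤ) ∣ b ∧ b % 4 = 1), G ((n : ℤ) * n - b ^ 2).toNat +
      ∑ b ∈ I.filter (fun b : ℤ => ¬ (3 : ℤ) ∣ b ∧ b % 4 = 3), G ((n : ℤ) * n - b ^ 2).toNat := by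
    rw [← Finset.sum_union]
    · congr 1
      ext b
      rw [mem_union, mem_filter, mem_filter, mem_filter]
      constructor
      · rintro ⟨h1, h2, h3⟩
        rcases (by omega : b % 4 = 1 ∨ b % 4 = 3) with h | h
        · exact Or.inl ⟨h1, h2, h⟩
        · exact Or.inr ⟨h1, h2, h⟩
      · rintro (⟨h1, h2, h3⟩ | ⟨h1, h2, h3⟩)
        · exact ⟨h1, h2, by omega⟩
        · exact ⟨h1, h2, by omega⟩
    · rw [Finset.disjoint_left]
      intro b hb hb'
      rw [mem_filter] at hb hb'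
      omega
  rw [e3, e2, e1]
  ring

/-- **BILA3** -/
theorem t_BILA3' (hPC : S_PC) : S_BILA3 := by
  intro n ⟨hsq, hn⟩
  have hcl : ClR n := ⟨Or.inl (by omega), by omega, not9 hsq⟩
  have h3 : (3 : ℤ) ∣ n := by omega
  have r := t_RELG n n hcl hcl _ (hB' n) (hB0' n)
  have a1 := A1 (hB' n) (hB0' n)
  have a2 := A2 hcl (hB' n) (hB0' n)
  have a3 := A3 hcl (hB' n) (hB0' n)
  rw [if_pos (by omega)] at a2
  rw [if_pos (by omega)] at a3
  have hRN : RN n = rr n := by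
    unfold RN
    rw [if_pos (by omega), if_pos (by omega)]
    ring
  have hCN : CN n * CN n = cc n ^ 2 := by
    have h8 : n % 8 = 3 := by omega
    have h3 : n % 3 = 0 := by omega
    unfold CN
    simp only [if_pos h8, if_pos h3]
    ring
  rw [hRN, hCN] at r
  set I := Ioo (-((n : ℤ) + 1)) ((n : ℤ) + 1) with hI
  have hkk3 : ∀ b : ℤ, kk3 n n b = if (3 : ℤ) ∣ b then (cp n b n : ℤ) else 0 := by
    intro b
    unfold kk3
    rw [if_pos (Or.inl (by omega))]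
  have s1 : ∑ b ∈ I, (4 * kk2 n n b - 1) * (cp n b n : ℤ) = 0 := by
    have : ∑ b ∈ I, (4 * kk2 n n b - 1) * (cp n b n : ℤ) =
        4 * ∑ b ∈ I, kk2 n n b * (cp n b n : ℤ) - ∑ b ∈ I, (cp n b n : ℤ) := by
      rw [Finset.mul_sum, ← Finset.sum_sub_distrib]
      exact sum_congr rfl fun b _ => by ring
    rw [this]
    linarith
  have s2 : 12 * ∑ b ∈ I, (4 * kk2 n n b - 1) * kk3 n n b = cc n ^ 2 := by
    have : ∑ b ∈ I, (4 * kk2 n n b - 1) * kk3 n n b =
        4 * ∑ b ∈ I, kk2 n n b * kk3 n n b - ∑ b ∈ I, kk3 n n b := by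
      rw [Finset.mul_sum, ← Finset.sum_sub_distrib]
      exact sum_congr rfl fun b _ => by ring
    rw [this]
    nlinarith [r, a3]
  have s3 : ∑ b ∈ I.filter (fun b : ℤ => ¬ (3 : ℤ) ∣ b ∧ b % 2 = 1),
      (4 * kk2 n n b - 1) * (cp n b n : ℤ) =
      ∑ b ∈ I, (4 * kk2 n n b - 1) * (cp n b n : ℤ) - ∑ b ∈ I, (4 * kk2 n n b - 1) * kk3 n n b := by
    rw [Finset.sum_filter, ← Finset.sum_sub_distrib]
    refine sum_congr rfl fun b _ => ?_
    rw [hkk3]
    by_cases h : (3 : ℤ) ∣ b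
    · rw [if_neg (fun h' => h'.1 h), if_pos h]
      ring
    · by_cases h2 : b % 2 = 1
      · rw [if_pos ⟨h, h2⟩, if_neg h]
        ring
      · rw [if_neg (fun h' => h2 h'.2), if_neg h, cp_even (by omega) (by omega : b % 2 = 0)]
        push_cast
        ring
  have s4 : ∑ b ∈ I.filter (fun b : ℤ => ¬ (3 : ℤ) ∣ b ∧ b % 2 = 1),
      (4 * kk2 n n b - 1) * (cp n b n : ℤ) =
      ∑ b ∈ I.filter (fun b : ℤ => ¬ (3 : ℤ) ∣ b ∧ b % 2 = 1),
        24 * (w2 ((n : ℤ) * n - b ^ 2).toNat * le n ((n : ℤ) * n - b ^ 2).toNat) := by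
    refine sum_congr rfl fun b hb => ?_
    rw [mem_filter] at hb
    have hD := posD hb.1 (by rintro rfl; exact hb.2.1 h3) (by rintro rfl; exact hb.2.1 (by omega))
    exact val hPC hsq (by omega) hb.2.2 hD
  have t : ∑ b ∈ I.filter (fun b : ℤ => ¬ (3 : ℤ) ∣ b ∧ b % 2 = 1),
        24 * (w2 ((n : ℤ) * n - b ^ 2).toNat * le n ((n : ℤ) * n - b ^ 2).toNat) =
      2 * ∑ T ∈ (range n).filter (fun T => T % 2 = 1 ∧ ¬ 3 ∣ T),
        24 * (w2 (4 * (n - T) * T) * le n (4 * (n - T) * T)) :=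
    toT_odd hn (fun D : ℕ => 24 * (w2 D * le n D))
  rw [t, ← Finset.mul_sum] at s4
  linarith

/-- **BILA3** -/
theorem t_BILA3 : S_BILA3 := t_BILA3' Pool.Agent.N763.P24.t_PC

end Pool.Agent.N9.P24x
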