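import Pool.Agent.N9.P24x.T
import Pool.Agent.N763.P24.CP3F

/-!
# P24x: the bilinear identities
-/

set_option autoImplicit false

namespace Pool.Agent.N9.P24x

open Finset Matrix
open Pool.Agent.Z700 (V3 vec cp hh fac chi12 S_PC)
open Pool.Agent.N877.P24

theorem not9 {n : ℕ} (h : Squarefree n) : ¬ 9 ∣ n := by
  intro h9
  have := h 3 (by simpa using h9)
  rw [Nat.isUnit_iff] at this
  omega

theorem hB' (n : ℕ) : (n : ℤ) * n < ((n : ℤ) + 1) ^ 2 := by nlinarith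
theorem hB0' (n : ℕ) : (0 : ℤ) < (n : ℤ) + 1 := by positivity

/-- the even classes: the sum over the even `b` -/
theorem kk2_even {n : ℕ} (hn : n % 4 = 2) (b : ℤ) :
    kk2 n n b - 1 = if b % 2 = 1 then 0 else if b % 4 = 2 then 1 else -1 := by
  unfold kk2
  rw [if_neg (by omega), if_neg (by omega)]
  by_cases h : b % 2 = 1
  · rw [if_pos h, if_pos h]; rfl
  · rw [if_neg h, if_neg h, if_pos rfl]
    by_cases h' : b % 4 = 2
    · rw [if_pos h', if_pos h']; rfl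
    · rw [if_neg h', if_neg h']; rfl

/-- from `b` to `T` for the even classes -/
theorem toT_even {n : ℕ} (hn : n % 4 = 2) (P : ℤ → Prop) [DecidablePred P] (G : ℕ → ℤ) :
    ∑ b ∈ (Ioo (-((n : ℤ) + 1)) ((n : ℤ) + 1)).filter (fun b : ℤ => P b ∧ b ≠ n ∧ b ≠ -n),
      (kk2 n n b - 1) * G ((n : ℤ) * n - b ^ 2).toNat =
    ∑ T ∈ (range (2 * n)).filter (fun T : ℕ => 0 < T ∧ 2 ∣ T ∧ P ((n : ℤ) - (T : ℤ))),
      w4 T * G ((2 * n - T) * T) := by
  have e1 : ∑ b ∈ (Ioo (-((n : ℤ) + 1)) ((n : ℤ) + 1)).filter (fun b : ℤ => P b ∧ b ≠ n ∧ b ≠ -n),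
      (kk2 n n b - 1) * G ((n : ℤ) * n - b ^ 2).toNat =
      ∑ b ∈ (Ioo (-((n : ℤ) + 1)) ((n : ℤ) + 1)).filter
        (fun b : ℤ => (P b ∧ b ≠ n ∧ b ≠ -n) ∧ b % 2 = 0),
      (kk2 n n b - 1) * G ((n : ℤ) * n - b ^ 2).toNat := by
    rw [← Finset.filter_filter (fun b : ℤ => P b ∧ b ≠ n ∧ b ≠ -n) (fun b : ℤ => b % 2 = 0),
      Finset.sum_filter (p := fun b : ℤ => b % 2 = 0)]
    refine sum_congr rfl fun b _ => ?_
    by_cases h : b % 2 = 0
    · rw [if_pos h]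
    · rw [if_neg h, kk2_even hn, if_pos (by omega), zero_mul]
  rw [e1]
  refine Finset.sum_nbij' (fun b => ((n : ℤ) - b).toNat) (fun T => (n : ℤ) - T) ?_ ?_ ?_ ?_ ?_
  · intro b hb
    rw [mem_filter, mem_Ioo] at hb
    obtain ⟨⟨h1, h2⟩, ⟨h3, h4, h5⟩, h6⟩ := hb
    rw [mem_filter, mem_range]
    have h7 : (((n : ℤ) - b).toNat : ℤ) = n - b := Int.toNat_of_nonneg (by omega)
    refine ⟨by omega, by omega, by omega, ?_⟩
    rw [h7, sub_sub_cancel]
    exact h3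
  · intro T hT
    rw [mem_filter, mem_range] at hT
    obtain ⟨h1, h2, h3, h4⟩ := hT
    rw [mem_filter, mem_Ioo]
    exact ⟨⟨by omega, by omega⟩, ⟨h4, by omega, by omega⟩, by omega⟩
  · intro b hb
    rw [mem_filter, mem_Ioo] at hb
    omega
  · intro T hT
    rw [mem_filter, mem_range] at hT
    omega
  · intro b hb
    rw [mem_filter, mem_Ioo] at hb
    obtain ⟨⟨h1, h2⟩, ⟨h3, h4, h5⟩, h6⟩ := hb
    have h7 : (((n : ℤ) - b).toNat : ℤ) = n - b := Int.toNat_of_nonneg (by omega)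
    generalize ((n : ℤ) - b).toNat = T at h7
    have hb' : b = n - T := by omega
    have h8 : ((n : ℤ) * n - b ^ 2).toNat = (2 * n - T) * T := by
      have : (n : ℤ) * n - b ^ 2 = (((2 * n - T) * T : ℕ) : ℤ) := by
        rw [Nat.cast_mul, Nat.cast_sub (by omega), hb']
        push_cast
        ring
      rw [this, Int.toNat_natCast]
    rw [h8, kk2_even hn, if_neg (by omega)]
    unfold w4
    congr 1
    by_cases h9 : b % 4 = 2
    · rw [if_pos h9, if_pos (by omega)]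
    · rw [if_neg h9, if_neg (by omega)]

theorem posD {n : ℕ} {b : ℤ} (hb : b ∈ Ioo (-((n : ℤ) + 1)) ((n : ℤ) + 1)) (h1 : b ≠ n)
    (h2 : b ≠ -n) : 0 < (n : ℤ) * n - b ^ 2 := by
  rw [mem_Ioo] at hb
  have h3 : -(n : ℤ) < b := by omega
  have h4 : b < n := by omega
  nlinarith

/-- **BILE6** -/
theorem t_BILE6 (hPC : S_PCE) : S_BILE6 := by
  intro n ⟨hsq, hn⟩
  have hcl : ClR n := ⟨Or.inr (by omega), by omega, not9 hsq⟩
  have hn2 : n % 4 = 2 := by omega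
  have h3 : (3 : ℤ) ∣ n := by omega
  have r := t_RELG n n hcl hcl _ (hB' n) (hB0' n)
  have a1 := A1 (hB' n) (hB0' n)
  have a2 := A2 hcl (hB' n) (hB0' n)
  have a3 := A3 hcl (hB' n) (hB0' n)
  rw [if_neg (by omega)] at a2
  rw [if_pos (by omega)] at a3
  have hRN : RN n = 2 * rr n := by
    unfold RN
    rw [if_neg (by omega), if_pos (by omega)]
    ring
  have hCN : CN n * CN n = 4 * ce n ^ 2 := by
    have h8 : ¬ n % 8 = 3 := by omega
    have h3 : n % 3 = 0 := by omega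
    unfold CN
    simp only [if_neg h8, if_pos h3]
    split_ifs <;> ring
  rw [hRN, hCN] at r
  set I := Ioo (-((n : ℤ) + 1)) ((n : ℤ) + 1) with hI
  have hkk3 : ∀ b : ℤ, kk3 n n b = if (3 : ℤ) ∣ b then (cp n b n : ℤ) else 0 := by
    intro b
    unfold kk3
    rw [if_pos (Or.inl (by omega))]
  -- the sum over all `b` vanishes
  have s1 : ∑ b ∈ I, (kk2 n n b - 1) * (cp n b n : ℤ) = 0 := by
    have : ∑ b ∈ I, (kk2 n n b - 1) * (cp n b n : ℤ) =
        ∑ b ∈ I, kk2 n n b * (cp n b n : ℤ) - ∑ b ∈ I, (cp n b n : ℤ) := by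
      rw [← Finset.sum_sub_distrib]
      exact sum_congr rfl fun b _ => by ring
    rw [this]
    linarith
  have s2 : 12 * ∑ b ∈ I, (kk2 n n b - 1) * kk3 n n b = ce n ^ 2 := by
    have : ∑ b ∈ I, (kk2 n n b - 1) * kk3 n n b =
        ∑ b ∈ I, kk2 n n b * kk3 n n b - ∑ b ∈ I, kk3 n n b := by
      rw [← Finset.sum_sub_distrib]
      exact sum_congr rfl fun b _ => by ring
    rw [this]
    nlinarith [r, a3]
  have s3 : ∑ b ∈ I.filter (fun b : ℤ => ¬ (3 : ℤ) ∣ b ∧ b ≠ n ∧ b ≠ -n),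
      (kk2 n n b - 1) * (cp n b n : ℤ) =
      ∑ b ∈ I, (kk2 n n b - 1) * (cp n b n : ℤ) - ∑ b ∈ I, (kk2 n n b - 1) * kk3 n n b := by
    rw [Finset.sum_filter, ← Finset.sum_sub_distrib]
    refine sum_congr rfl fun b _ => ?_
    rw [hkk3]
    by_cases h : (3 : ℤ) ∣ b
    · rw [if_neg (fun h' => h'.1 h), if_pos h]
      ring
    · rw [if_pos ⟨h, by rintro rfl; exact h h3, by rintro rfl; exact h (by omega)⟩, if_neg h]
      ring
  have s4 : ∑ b ∈ I.filter (fun b : ℤ => ¬ (3 : ℤ) ∣ b ∧ b ≠ n ∧ b ≠ -n),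
      (kk2 n n b - 1) * (cp n b n : ℤ) =
      24 * ∑ b ∈ I.filter (fun b : ℤ => ¬ (3 : ℤ) ∣ b ∧ b ≠ n ∧ b ≠ -n),
        (kk2 n n b - 1) * le n ((n : ℤ) * n - b ^ 2).toNat := by
    rw [Finset.mul_sum]
    refine sum_congr rfl fun b hb => ?_
    rw [mem_filter] at hb
    have hD := posD hb.1 hb.2.2.1 hb.2.2.2
    rw [hPC n n b ((n : ℤ) * n - b ^ 2).toNat hsq (by omega) (by omega)
      (Int.toNat_of_nonneg hD.le)]
    ring
  rw [toT_even hn2 (fun b : ℤ => ¬ (3 : ℤ) ∣ b) (le n)] at s4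
  have s5 : (range (2 * n)).filter (fun T : ℕ => 0 < T ∧ 2 ∣ T ∧ ¬ (3 : ℤ) ∣ (n : ℤ) - (T : ℤ)) =
      (range (2 * n)).filter (fun T => 0 < T ∧ 2 ∣ T ∧ ¬ 3 ∣ T) := by
    refine filter_congr fun T _ => ?_
    have : (3 : ℤ) ∣ (n : ℤ) - T ↔ 3 ∣ T := by omega
    rw [this]
  rw [s5] at s4
  linarith

/-- the pairs with `b = ± n` -/
theorem edge {n : ℕ} (hn : n % 3 = 2) {b : ℤ} (hb : b = n ∨ b = -n) : cp n b n = cp3 n b n := by
  unfold cp cp3
  congr 1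
  refine filter_congr fun q hq => ?_
  rw [mem_product, mem_vec, mem_vec] at hq
  obtain ⟨h1, h2⟩ := hq
  refine ⟨fun h => ⟨h, ?_⟩, fun h => h.1⟩
  rw [dot3] at h
  have key : ∀ i : Fin 3, q.1 i = (if b = n then 1 else -1) * q.2 i := by
    rcases hb with hb | hb
    · rw [if_pos hb]
      have h4 : (q.1 0 - q.2 0) ^ 2 + (q.1 1 - q.2 1) ^ 2 + (q.1 2 - q.2 2) ^ 2 = 0 := by
        linear_combination h1 + h2 - 2 * h - 2 * hb
      have k0 : q.1 0 - q.2 0 = 0 := by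
        nlinarith [sq_nonneg (q.1 0 - q.2 0), sq_nonneg (q.1 1 - q.2 1), sq_nonneg (q.1 2 - q.2 2)]
      have k1 : q.1 1 - q.2 1 = 0 := by
        nlinarith [sq_nonneg (q.1 0 - q.2 0), sq_nonneg (q.1 1 - q.2 1), sq_nonneg (q.1 2 - q.2 2)]
      have k2 : q.1 2 - q.2 2 = 0 := by
        nlinarith [sq_nonneg (q.1 0 - q.2 0), sq_nonneg (q.1 1 - q.2 1), sq_nonneg (q.1 2 - q.2 2)]
      rw [all3]
      refine ⟨?_, ?_, ?_⟩ <;> linarith
    · have hne : b ≠ n := by omega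
      rw [if_neg hne]
      have h4 : (q.1 0 + q.2 0) ^ 2 + (q.1 1 + q.2 1) ^ 2 + (q.1 2 + q.2 2) ^ 2 = 0 := by
        linear_combination h1 + h2 + 2 * h + 2 * hb
      have k0 : q.1 0 + q.2 0 = 0 := by
        nlinarith [sq_nonneg (q.1 0 + q.2 0), sq_nonneg (q.1 1 + q.2 1), sq_nonneg (q.1 2 + q.2 2)]
      have k1 : q.1 1 + q.2 1 = 0 := by
        nlinarith [sq_nonneg (q.1 0 + q.2 0), sq_nonneg (q.1 1 + q.2 1), sq_nonneg (q.1 2 + q.2 2)]
      have k2 : q.1 2 + q.2 2 = 0 := by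
        nlinarith [sq_nonneg (q.1 0 + q.2 0), sq_nonneg (q.1 1 + q.2 1), sq_nonneg (q.1 2 + q.2 2)]
      rw [all3]
      refine ⟨?_, ?_, ?_⟩ <;> linarith
  intro i
  rw [key i]
  obtain ⟨k, hk⟩ : (3 : ℤ) ∣ n + 1 := by omega
  rcases hb with hb | hb
  · rw [if_pos hb, hb]
    exact ⟨k * q.2 i, by linear_combination q.2 i * hk⟩
  · have hne : b ≠ n := by omega
    rw [if_neg hne, hb]
    exact ⟨-k * q.2 i, by linear_combination -q.2 i * hk⟩

theorem le_le3 {n D : ℕ} (h : ¬ 3 ∣ D) : le3 n D = le n D := by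
  unfold le3 le
  rw [Finset.erase_eq_of_notMem]
  intro h'
  rw [mem_erase, Nat.mem_primeFactors] at h'
  exact h h'.2.2.1

/-- **BILE2** -/
theorem t_BILE2 (hPC : S_PCE) (hP3 : S_CP3E) : S_BILE2 := by
  intro n ⟨hsq, hn⟩
  have hcl : ClR n := ⟨Or.inr (by omega), by omega, not9 hsq⟩
  have hn2 : n % 4 = 2 := by omega
  have r := t_RELG n n hcl hcl _ (hB' n) (hB0' n)
  have a1 := A1 (hB' n) (hB0' n)
  have a2 := A2 hcl (hB' n) (hB0' n)
  have a3 := A3 hcl (hB' n) (hB0' n)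
  rw [if_neg (by omega)] at a2
  rw [if_neg (by omega)] at a3
  have hRN : RN n = 4 * rr n := by
    unfold RN
    rw [if_neg (by omega), if_neg (by omega)]
    ring
  have hCN : CN n * CN n = 16 * ce n ^ 2 := by
    have h8 : ¬ n % 8 = 3 := by omega
    have h3 : ¬ n % 3 = 0 := by omega
    unfold CN
    simp only [if_neg h8, if_neg h3]
    split_ifs <;> ring
  rw [hRN, hCN] at r
  set I := Ioo (-((n : ℤ) + 1)) ((n : ℤ) + 1) with hI
  have hD3 : ∀ b : ℤ, (3 : ℤ) ∣ (n : ℤ) * n - b ^ 2 ↔ ¬ (3 : ℤ) ∣ b := by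
    intro b
    have h1 := sq3 (n : ℤ)
    have h2 := sq3 b
    rw [pow_two]
    generalize (n : ℤ) * n = N at *
    generalize b * b = M at *
    omega
  have hkk3 : ∀ b : ℤ, kk3 n n b = if (3 : ℤ) ∣ b then 0 else (cp n b n : ℤ) + cp3 n b n := by
    intro b
    unfold kk3
    rw [if_neg (by omega)]
    by_cases h : (3 : ℤ) ∣ b
    · rw [if_pos h, if_neg (fun h' => (hD3 b).1 h' h)]
    · rw [if_neg h, if_pos ((hD3 b).2 h)]
  have s1 : ∑ b ∈ I, (kk2 n n b - 1) * (cp n b n : ℤ) = 0 := by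
    have : ∑ b ∈ I, (kk2 n n b - 1) * (cp n b n : ℤ) =
        ∑ b ∈ I, kk2 n n b * (cp n b n : ℤ) - ∑ b ∈ I, (cp n b n : ℤ) := by
      rw [← Finset.sum_sub_distrib]
      exact sum_congr rfl fun b _ => by ring
    rw [this]
    linarith
  have s2 : 3 * ∑ b ∈ I, (kk2 n n b - 1) * kk3 n n b = ce n ^ 2 := by
    have : ∑ b ∈ I, (kk2 n n b - 1) * kk3 n n b =
        ∑ b ∈ I, kk2 n n b * kk3 n n b - ∑ b ∈ I, kk3 n n b := by
      rw [← Finset.sum_sub_distrib]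
      exact sum_congr rfl fun b _ => by ring
    rw [this]
    nlinarith [r, a3]
  have s3 : 48 * ∑ b ∈ I.filter (fun b : ℤ => True ∧ b ≠ n ∧ b ≠ -n),
      (kk2 n n b - 1) * le3 n ((n : ℤ) * n - b ^ 2).toNat =
      2 * ∑ b ∈ I, (kk2 n n b - 1) * (cp n b n : ℤ) - ∑ b ∈ I, (kk2 n n b - 1) * kk3 n n b := by
    rw [Finset.sum_filter, Finset.mul_sum, Finset.mul_sum, ← Finset.sum_sub_distrib]
    refine sum_congr rfl fun b hb => ?_
    by_cases he : b ≠ n ∧ b ≠ -n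
    · rw [if_pos ⟨trivial, he⟩]
      have hD := posD hb he.1 he.2
      have hDD : (((n : ℤ) * n - b ^ 2).toNat : ℤ) = n * n - b ^ 2 := Int.toNat_of_nonneg hD.le
      rw [hkk3]
      by_cases h : (3 : ℤ) ∣ b
      · rw [if_pos h, hPC n n b ((n : ℤ) * n - b ^ 2).toNat hsq (by omega) (by omega) hDD,
          le_le3 (fun h' => (hD3 b).1 (by rw [← hDD]; exact_mod_cast h') h)]
        ring
      · rw [if_neg h]
        have := hP3 n n b ((n : ℤ) * n - b ^ 2).toNat ⟨hsq, hn⟩ (by omega) h (by omega) hDD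
        linear_combination (kk2 n n b - 1) * (-this)
    · rw [if_neg (fun h => he h.2)]
      have he' : b = n ∨ b = -n := by tauto
      have h3 : ¬ (3 : ℤ) ∣ b := by omega
      rw [hkk3, if_neg h3, ← edge (by omega) he']
      ring
  rw [toT_even hn2 (fun _ => True) (le3 n)] at s3
  have s5 : (range (2 * n)).filter (fun T => 0 < T ∧ 2 ∣ T ∧ True) =
      (range (2 * n)).filter (fun T => 0 < T ∧ 2 ∣ T) := by
    refine filter_congr fun T _ => ?_
    tauto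
  rw [s5] at s3
  linarith

end Pool.Agent.N9.P24x
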