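import Pool.Agent.N9.P24x.RelG

/-!
# P24x: the relation RELG and averages
-/

set_option autoImplicit false

namespace Pool.Agent.N9.P24x

open Finset Matrix
open Pool.Agent.Z700 (V3 vec cp hh fac chi12)
open Pool.Agent.N877.P24

theorem nn_vec {n : ℤ} {v : V3} (hv : v ∈ vec n) : nn (v 0) (v 1) (v 2) = n := (mem_vec n v).1 hv

theorem dd_vec (x y : V3) : x ⬝ᵥ y = dd (x 0) (x 1) (x 2) (y 0) (y 1) (y 2) := dot3 x y

theorem cl_of {n : ℕ} (h : ClR n) {v : V3} (hv : v ∈ vec n) : Cl (v 0) (v 1) (v 2) := by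
  have e := nn_vec hv
  obtain ⟨h1, h2, h3⟩ := h
  refine ⟨?_, ?_, ?_⟩
  · rw [e]; omega
  · rw [e]; omega
  · rintro ⟨a0, a1, a2⟩
    apply h3
    obtain ⟨u, hu⟩ : (3 : ℤ) ∣ v 0 := by omega
    obtain ⟨w, hw⟩ : (3 : ℤ) ∣ v 1 := by omega
    obtain ⟨z, hz⟩ : (3 : ℤ) ∣ v 2 := by omega
    have : (9 : ℤ) ∣ n := by
      rw [← e]
      unfold nn
      rw [hu, hw, hz]
      exact ⟨u * u + w * w + z * z, by ring⟩
    exact_mod_cast this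

theorem kk2_eq {n1 n2 : ℕ} {x y : V3} (hx : x ∈ vec n1) (hy : y ∈ vec n2) :
    kk2 n1 n2 (x ⬝ᵥ y) = K2 (x 0) (x 1) (x 2) (y 0) (y 1) (y 2) := by
  have a1 : n1 % 8 = 3 ↔ (n1 : ℤ) % 8 = 3 := by omega
  have a2 : n2 % 8 = 3 ↔ (n2 : ℤ) % 8 = 3 := by omega
  have a3 : n1 % 8 = n2 % 8 ↔ (n1 : ℤ) % 8 = (n2 : ℤ) % 8 := by omega
  unfold kk2 K2
  rw [nn_vec hx, nn_vec hy]
  by_cases b1 : (n1 : ℤ) % 8 = 3 ∧ (n2 : ℤ) % 8 = 3
  · rw [if_pos (by omega : n1 % 8 = 3 ∧ n2 % 8 = 3), if_pos b1]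
    have h := d32 (odd_vec b1.1 hx) (odd_vec b1.2 hy)
    rw [(mem_vec _ _).1 hx, (mem_vec _ _).1 hy, ← dot3] at h
    rw [Int.dvd_iff_emod_eq_zero (a := 4), Int.dvd_iff_emod_eq_zero (a := 4)] at h
    simp only [h]
  · rw [if_neg (by omega : ¬ (n1 % 8 = 3 ∧ n2 % 8 = 3)), if_neg b1, dd_vec]
    simp only [a1, a2, a3]

/-- the pointwise weight at three -/
noncomputable def w3 (n1 n2 : ℕ) (b : ℤ) (q : V3 × V3) : ℤ :=
  if 3 ∣ n1 ∨ 3 ∣ n2 then (if (3 : ℤ) ∣ b then 1 else 0)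
  else (if (3 : ℤ) ∣ n1 * n2 - b ^ 2 then 1 + (if ∀ i, (3 : ℤ) ∣ q.1 i + b * q.2 i then 1 else 0)
    else 0)

theorem w3_eq {n1 n2 : ℕ} {x y : V3} (hx : x ∈ vec n1) (hy : y ∈ vec n2) :
    w3 n1 n2 (x ⬝ᵥ y) (x, y) = K3 (x 0) (x 1) (x 2) (y 0) (y 1) (y 2) := by
  have a1 : (3 ∣ n1 ∨ 3 ∣ n2) ↔ ((n1 : ℤ) % 3 = 0 ∨ (n2 : ℤ) % 3 = 0) := by omega
  have a2 : ∀ z : ℤ, (3 : ℤ) ∣ z ↔ z % 3 = 0 := fun z => Int.dvd_iff_emod_eq_zero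
  unfold w3 K3
  rw [nn_vec hx, nn_vec hy, dd_vec]
  have a3 : (∀ i, (3 : ℤ) ∣ x i + dd (x 0) (x 1) (x 2) (y 0) (y 1) (y 2) * y i) ↔
      ((x 0 + dd (x 0) (x 1) (x 2) (y 0) (y 1) (y 2) * y 0) % 3 = 0 ∧
        (x 1 + dd (x 0) (x 1) (x 2) (y 0) (y 1) (y 2) * y 1) % 3 = 0 ∧
          (x 2 + dd (x 0) (x 1) (x 2) (y 0) (y 1) (y 2) * y 2) % 3 = 0) := by
    rw [all3, a2, a2, a2]
  simp only [a1, a2 (dd _ _ _ _ _ _), a2 (_ - _), a3]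
  split_ifs <;> rfl

theorem kk3_sum (n1 n2 : ℕ) (b : ℤ) : kk3 n1 n2 b =
    ∑ q ∈ (vec n1 ×ˢ vec n2).filter (fun q => q.1 ⬝ᵥ q.2 = b), w3 n1 n2 (q.1 ⬝ᵥ q.2) q := by
  have e : ∑ q ∈ (vec n1 ×ˢ vec n2).filter (fun q => q.1 ⬝ᵥ q.2 = b), w3 n1 n2 (q.1 ⬝ᵥ q.2) q =
      ∑ q ∈ (vec n1 ×ˢ vec n2).filter (fun q => q.1 ⬝ᵥ q.2 = b), w3 n1 n2 b q :=
    sum_congr rfl fun q hq => by rw [(mem_filter.1 hq).2]
  rw [e]
  unfold kk3 w3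
  have hcp : ∑ q ∈ (vec n1 ×ˢ vec n2).filter (fun q => q.1 ⬝ᵥ q.2 = b), (1 : ℤ) = cp n1 b n2 := by
    rw [Finset.sum_const, nsmul_eq_mul, mul_one]
    rfl
  by_cases h : 3 ∣ n1 ∨ 3 ∣ n2
  · simp only [if_pos h]
    by_cases h' : (3 : ℤ) ∣ b
    · simp only [if_pos h']
      exact hcp.symm
    · simp only [if_neg h']
      rw [Finset.sum_const_zero]
  · simp only [if_neg h]
    by_cases h' : (3 : ℤ) ∣ n1 * n2 - b ^ 2
    · simp only [if_pos h']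
      rw [Finset.sum_add_distrib, hcp]
      congr 1
      unfold cp3
      rw [Finset.card_filter, Finset.sum_filter]
      push_cast
      refine sum_congr rfl fun q _ => ?_
      by_cases h1 : q.1 ⬝ᵥ q.2 = b
      · simp [h1]
      · simp [h1]
    · simp only [if_neg h']
      rw [Finset.sum_const_zero]

theorem fib {n1 n2 B : ℤ} (hB : n1 * n2 < B ^ 2) (hB0 : 0 < B) (φ : ℤ → ℤ) (w : V3 × V3 → ℤ) :
    ∑ b ∈ Ioo (-B) B, φ b * ∑ q ∈ (vec n1 ×ˢ vec n2).filter (fun q => q.1 ⬝ᵥ q.2 = b), w q =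
      ∑ q ∈ vec n1 ×ˢ vec n2, φ (q.1 ⬝ᵥ q.2) * w q := by
  rw [← Finset.sum_fiberwise_of_maps_to (s := vec n1 ×ˢ vec n2) (t := Ioo (-B) B)
    (g := fun q => q.1 ⬝ᵥ q.2) (fun q hq => mem_Ioo' hB hB0 (mem_product.1 hq).1 (mem_product.1 hq).2)]
  refine sum_congr rfl fun b _ => ?_
  rw [mul_sum]
  refine sum_congr rfl fun q hq => ?_
  rw [(mem_filter.1 hq).2]

theorem SS_prod (n1 n2 : ℤ) (f g : ℤ → ℤ → ℤ → ℤ) :
    SS n1 n2 (fun x0 x1 x2 y0 y1 y2 => f x0 x1 x2 * g y0 y1 y2) =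
      (∑ v ∈ vec n1, f (v 0) (v 1) (v 2)) * ∑ v ∈ vec n2, g (v 0) (v 1) (v 2) := by
  unfold SS
  exact sum_mul' n1 n2 (fun v => f (v 0) (v 1) (v 2)) (fun v => g (v 0) (v 1) (v 2))

theorem sum_RF (n : ℕ) : ∑ v ∈ vec n, RF (v 0) (v 1) (v 2) = RN n := by
  have h : ∀ v ∈ vec (n : ℤ), RF (v 0) (v 1) (v 2) =
      (if n % 8 = 3 then 1 else 2) * (if n % 3 = 0 then 1 else 2) := by
    intro v hv
    have a1 : n % 8 = 3 ↔ (n : ℤ) % 8 = 3 := by omega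
    have a2 : n % 3 = 0 ↔ (n : ℤ) % 3 = 0 := by omega
    unfold RF
    rw [nn_vec hv]
    simp only [a1, a2]
  rw [sum_congr rfl h, Finset.sum_const, nsmul_eq_mul]
  unfold RN rr
  ring

theorem phi_eq (v : V3) : phi v = phi' (v 0) (v 1) (v 2) := rfl

theorem psi_eq' (v : V3) : psi v = psi' (v 0) (v 1) (v 2) := by
  have a2 : ∀ z : ℤ, (3 : ℤ) ∣ z ↔ z % 3 = 0 := fun z => Int.dvd_iff_emod_eq_zero
  unfold psi psi'
  rw [Fin.prod_univ_three]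
  simp only [a2]

theorem psiE_eq (v : V3) : psiE v = psiE' (v 0) (v 1) (v 2) := by
  have a2 : ∀ z : ℤ, (2 : ℤ) ∣ z ↔ z % 2 = 0 := fun z => Int.dvd_iff_emod_eq_zero
  unfold psiE psiE'
  rw [Fin.prod_univ_three]
  simp only [a2]

theorem sum_CF (n : ℕ) : ∑ v ∈ vec n, CF (v 0) (v 1) (v 2) = CN n := by
  have a1 : n % 8 = 3 ↔ (n : ℤ) % 8 = 3 := by omega
  have a2 : n % 3 = 0 ↔ (n : ℤ) % 3 = 0 := by omega
  have a3 : n % 8 = 2 ↔ (n : ℤ) % 8 = 2 := by omega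
  have h : ∀ v ∈ vec (n : ℤ), CF (v 0) (v 1) (v 2) =
      if (n : ℤ) % 8 = 3 then
        (if (n : ℤ) % 3 = 0 then -phi v else -(2 * psi v))
      else (if (n : ℤ) % 8 = 2 then 1 else -1) *
        (if (n : ℤ) % 3 = 0 then 2 * psiE v else -(4 * psiE v)) := by
    intro v hv
    unfold CF
    rw [nn_vec hv, phi_eq, psi_eq', psiE_eq]
  rw [sum_congr rfl h]
  unfold CN cc ce
  simp only [a1, a2, a3]
  by_cases h8 : (n : ℤ) % 8 = 3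
  · simp only [if_pos h8]
    by_cases h3 : (n : ℤ) % 3 = 0
    · simp only [if_pos h3]
      rw [Finset.sum_neg_distrib]
    · simp only [if_neg h3]
      rw [Finset.sum_neg_distrib, Finset.mul_sum]
  · simp only [if_neg h8]
    by_cases h3 : (n : ℤ) % 3 = 0
    · simp only [if_pos h3]
      rw [← Finset.mul_sum, ← Finset.mul_sum]
    · simp only [if_neg h3]
      rw [← Finset.mul_sum, Finset.sum_neg_distrib, ← Finset.mul_sum]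

theorem SS_congr {n1 n2 : ℕ} (h1 : ClR n1) (h2 : ClR n2) {f g : F6}
    (h : ∀ x0 x1 x2 y0 y1 y2 : ℤ, Cl x0 x1 x2 → Cl y0 y1 y2 → nn x0 x1 x2 = n1 → nn y0 y1 y2 = n2 →
      f x0 x1 x2 y0 y1 y2 = g x0 x1 x2 y0 y1 y2) : SS n1 n2 f = SS n1 n2 g := by
  unfold SS
  refine sum_congr rfl fun q hq => ?_
  rw [mem_product] at hq
  exact h _ _ _ _ _ _ (cl_of h1 hq.1) (cl_of h2 hq.2) (nn_vec hq.1) (nn_vec hq.2)

/-- **RELG** -/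
theorem t_RELG : S_RELG := by
  intro n1 n2 h1 h2 B hB hB0
  have e1 : ∑ b ∈ Ioo (-B) B, kk2 n1 n2 b * kk3 n1 n2 b = SS n1 n2 K := by
    rw [sum_congr rfl (fun b _ => by rw [kk3_sum])]
    rw [fib hB hB0 (kk2 n1 n2) (fun q => w3 n1 n2 (q.1 ⬝ᵥ q.2) q)]
    unfold SS K
    refine sum_congr rfl fun q hq => ?_
    rw [mem_product] at hq
    rw [kk2_eq hq.1 hq.2]
    rw [show w3 n1 n2 (q.1 ⬝ᵥ q.2) q = w3 n1 n2 (q.1 ⬝ᵥ q.2) (q.1, q.2) from rfl, w3_eq hq.1 hq.2]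
  rw [e1, ← SS_Q, SS_congr h1 h2 (g := fun x0 x1 x2 y0 y1 y2 =>
    (3 * RF x0 x1 x2) * RF y0 y1 y2 + CF x0 x1 x2 * CF y0 y1 y2)
    (fun _ _ _ _ _ _ hx hy _ _ => all_K hx hy)]
  have e2 : SS n1 n2 (fun x0 x1 x2 y0 y1 y2 =>
      (3 * RF x0 x1 x2) * RF y0 y1 y2 + CF x0 x1 x2 * CF y0 y1 y2) =
      SS n1 n2 (fun x0 x1 x2 y0 y1 y2 => (3 * RF x0 x1 x2) * RF y0 y1 y2) +
      SS n1 n2 (fun x0 x1 x2 y0 y1 y2 => CF x0 x1 x2 * CF y0 y1 y2) := by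
    unfold SS
    rw [Finset.sum_add_distrib]
  rw [e2, SS_prod n1 n2 (fun x0 x1 x2 => 3 * RF x0 x1 x2) RF, SS_prod n1 n2 CF CF, ← Finset.mul_sum,
    sum_RF, sum_RF, sum_CF, sum_CF]

theorem SS_const (n1 n2 : ℤ) (c : ℤ) : SS n1 n2 (fun _ _ _ _ _ _ => c) = c * (rr n1 * rr n2) := by
  unfold SS rr
  rw [Finset.sum_const, Finset.card_product, nsmul_eq_mul]
  push_cast
  ring

/-- all the pairs -/
theorem A1 {n : ℕ} {B : ℤ} (hB : (n : ℤ) * n < B ^ 2) (hB0 : 0 < B) :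
    ∑ b ∈ Ioo (-B) B, (cp n b n : ℤ) = rr n ^ 2 := by
  have hcp : ∀ b : ℤ, (cp n b n : ℤ) =
      1 * ∑ q ∈ (vec n ×ˢ vec n).filter (fun q => q.1 ⬝ᵥ q.2 = b), (1 : ℤ) := by
    intro b
    rw [Finset.sum_const, nsmul_eq_mul, mul_one, one_mul]
    rfl
  rw [sum_congr rfl (fun b _ => hcp b), fib hB hB0 (fun _ => 1) (fun _ => 1)]
  unfold rr
  rw [Finset.sum_const, Finset.card_product, nsmul_eq_mul]
  push_cast
  ring

/-- the average of the weight at two -/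
theorem A2 {n : ℕ} (h : ClR n) {B : ℤ} (hB : (n : ℤ) * n < B ^ 2) (hB0 : 0 < B) :
    48 * ∑ b ∈ Ioo (-B) B, kk2 n n b * (cp n b n : ℤ) = (if n % 8 = 3 then 12 else 48) * rr n ^ 2 := by
  have hcp : ∀ b : ℤ, (cp n b n : ℤ) =
      ∑ q ∈ (vec n ×ˢ vec n).filter (fun q => q.1 ⬝ᵥ q.2 = b), (1 : ℤ) := by
    intro b
    rw [Finset.sum_const, nsmul_eq_mul, mul_one]
    rfl
  have e1 : ∑ b ∈ Ioo (-B) B, kk2 n n b * (cp n b n : ℤ) = SS n n K2 := by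
    rw [sum_congr rfl (fun b _ => by rw [hcp b]), fib hB hB0 (kk2 n n) (fun _ => 1)]
    unfold SS
    refine sum_congr rfl fun q hq => ?_
    rw [mem_product] at hq
    rw [kk2_eq hq.1 hq.2, mul_one]
  rw [e1, ← SS_Q, SS_congr h h (g := fun _ _ _ _ _ _ => if n % 8 = 3 then 12 else 48) ?_, SS_const]
  · ring
  · intro x0 x1 x2 y0 y1 y2 hx hy hx' hy'
    rw [all_K2 hx hy, hx', hy']
    by_cases h8 : n % 8 = 3
    · rw [if_pos (by omega), if_pos h8]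
    · rw [if_neg (by omega), if_neg (by omega), if_neg h8]

/-- the average of the count at three -/
theorem A3 {n : ℕ} (h : ClR n) {B : ℤ} (hB : (n : ℤ) * n < B ^ 2) (hB0 : 0 < B) :
    48 * ∑ b ∈ Ioo (-B) B, kk3 n n b = (if n % 3 = 0 then 12 else 48) * rr n ^ 2 := by
  have e1 : ∑ b ∈ Ioo (-B) B, kk3 n n b = SS n n K3 := by
    rw [sum_congr rfl (fun b _ => by rw [kk3_sum, ← one_mul (Finset.sum _ _)]),
      fib hB hB0 (fun _ => 1) (fun q => w3 n n (q.1 ⬝ᵥ q.2) q)]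
    unfold SS
    refine sum_congr rfl fun q hq => ?_
    rw [mem_product] at hq
    rw [show w3 n n (q.1 ⬝ᵥ q.2) q = w3 n n (q.1 ⬝ᵥ q.2) (q.1, q.2) from rfl, w3_eq hq.1 hq.2,
      one_mul]
  rw [e1, ← SS_Q, SS_congr h h (g := fun _ _ _ _ _ _ => if n % 3 = 0 then 12 else 48) ?_, SS_const]
  · ring
  · intro x0 x1 x2 y0 y1 y2 hx hy hx' hy'
    rw [all_K3 hx hy, hx', hy']
    by_cases h8 : n % 3 = 0
    · rw [if_pos (by omega), if_pos h8]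
    · rw [if_neg (by omega), if_neg (by omega), if_neg h8]

end Pool.Agent.N9.P24x
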