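import Pool.Agent.N877.P24.Defs2
import Pool.Agent.N877.P24.Rel2

/-!
# P24x: averages over the signed permutations
-/

set_option autoImplicit false

namespace Pool.Agent.N9.P24x

open Finset Matrix
open Pool.Agent.Z700 (V3 vec cp hh fac chi12)
open Pool.Agent.N877.P24

/-- functions of two vectors -/
abbrev F6 := ℤ → ℤ → ℤ → ℤ → ℤ → ℤ → ℤ

/-- functions of the classes modulo `12` invariant under simultaneous signed permutations -/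
structure Inv (f : F6) : Prop where
  cg : ∀ x0 x1 x2 y0 y1 y2 x0' x1' x2' y0' y1' y2' : ℤ, x0 % 12 = x0' % 12 → x1 % 12 = x1' % 12 →
    x2 % 12 = x2' % 12 → y0 % 12 = y0' % 12 → y1 % 12 = y1' % 12 → y2 % 12 = y2' % 12 →
    f x0 x1 x2 y0 y1 y2 = f x0' x1' x2' y0' y1' y2'
  sg : ∀ x0 x1 x2 y0 y1 y2 : ℤ, f (-x0) x1 x2 (-y0) y1 y2 = f x0 x1 x2 y0 y1 y2
  s01 : ∀ x0 x1 x2 y0 y1 y2 : ℤ, f x1 x0 x2 y1 y0 y2 = f x0 x1 x2 y0 y1 y2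
  s12 : ∀ x0 x1 x2 y0 y1 y2 : ℤ, f x0 x2 x1 y0 y2 y1 = f x0 x1 x2 y0 y1 y2

/-- functions of the classes modulo `12` invariant under signed permutations of both vectors -/
structure Inv2 (f : F6) : Prop where
  cg : ∀ x0 x1 x2 y0 y1 y2 x0' x1' x2' y0' y1' y2' : ℤ, x0 % 12 = x0' % 12 → x1 % 12 = x1' % 12 →
    x2 % 12 = x2' % 12 → y0 % 12 = y0' % 12 → y1 % 12 = y1' % 12 → y2 % 12 = y2' % 12 →
    f x0 x1 x2 y0 y1 y2 = f x0' x1' x2' y0' y1' y2'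
  sx : ∀ x0 x1 x2 y0 y1 y2 : ℤ, f (-x0) x1 x2 y0 y1 y2 = f x0 x1 x2 y0 y1 y2
  sy : ∀ x0 x1 x2 y0 y1 y2 : ℤ, f x0 x1 x2 (-y0) y1 y2 = f x0 x1 x2 y0 y1 y2
  x01 : ∀ x0 x1 x2 y0 y1 y2 : ℤ, f x1 x0 x2 y0 y1 y2 = f x0 x1 x2 y0 y1 y2
  x12 : ∀ x0 x1 x2 y0 y1 y2 : ℤ, f x0 x2 x1 y0 y1 y2 = f x0 x1 x2 y0 y1 y2
  y01 : ∀ x0 x1 x2 y0 y1 y2 : ℤ, f x0 x1 x2 y1 y0 y2 = f x0 x1 x2 y0 y1 y2
  y12 : ∀ x0 x1 x2 y0 y1 y2 : ℤ, f x0 x1 x2 y0 y2 y1 = f x0 x1 x2 y0 y1 y2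

/-- the sum over the sign changes -/
def T8 (f : ℤ → ℤ → ℤ → ℤ) (a b c : ℤ) : ℤ :=
  f a b c + f (-a) b c + f a (-b) c + f (-a) (-b) c + f a b (-c) + f (-a) b (-c) + f a (-b) (-c) +
    f (-a) (-b) (-c)

/-- the sum over the permutations -/
def T6 (f : ℤ → ℤ → ℤ → ℤ) (a b c : ℤ) : ℤ :=
  f a b c + f b a c + f c b a + f a c b + f b c a + f c a b

/-- the sum over the signed permutations of the second vector -/
def Q (f : F6) : F6 := fun x0 x1 x2 y0 y1 y2 => T6 (T8 (f x0 x1 x2)) y0 y1 y2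

theorem neg12 {a b : ℤ} (h : a % 12 = b % 12) : (-a) % 12 = (-b) % 12 := by omega

theorem T8_cg {f : F6} (hf : Inv f) {x0 x1 x2 y0 y1 y2 x0' x1' x2' y0' y1' y2' : ℤ}
    (h0 : x0 % 12 = x0' % 12) (h1 : x1 % 12 = x1' % 12) (h2 : x2 % 12 = x2' % 12)
    (k0 : y0 % 12 = y0' % 12) (k1 : y1 % 12 = y1' % 12) (k2 : y2 % 12 = y2' % 12) :
    T8 (f x0 x1 x2) y0 y1 y2 = T8 (f x0' x1' x2') y0' y1' y2' := by
  unfold T8
  rw [hf.cg _ _ _ _ _ _ _ _ _ _ _ _ h0 h1 h2 k0 k1 k2,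
    hf.cg _ _ _ _ _ _ _ _ _ _ _ _ h0 h1 h2 (neg12 k0) k1 k2,
    hf.cg _ _ _ _ _ _ _ _ _ _ _ _ h0 h1 h2 k0 (neg12 k1) k2,
    hf.cg _ _ _ _ _ _ _ _ _ _ _ _ h0 h1 h2 (neg12 k0) (neg12 k1) k2,
    hf.cg _ _ _ _ _ _ _ _ _ _ _ _ h0 h1 h2 k0 k1 (neg12 k2),
    hf.cg _ _ _ _ _ _ _ _ _ _ _ _ h0 h1 h2 (neg12 k0) k1 (neg12 k2),
    hf.cg _ _ _ _ _ _ _ _ _ _ _ _ h0 h1 h2 k0 (neg12 k1) (neg12 k2),
    hf.cg _ _ _ _ _ _ _ _ _ _ _ _ h0 h1 h2 (neg12 k0) (neg12 k1) (neg12 k2)]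

theorem Q_inv {f : F6} (hf : Inv f) : Inv2 (Q f) where
  cg := by
    intro x0 x1 x2 y0 y1 y2 x0' x1' x2' y0' y1' y2' h0 h1 h2 k0 k1 k2
    unfold Q T6
    rw [T8_cg hf h0 h1 h2 k0 k1 k2, T8_cg hf h0 h1 h2 k1 k0 k2, T8_cg hf h0 h1 h2 k2 k1 k0,
      T8_cg hf h0 h1 h2 k0 k2 k1, T8_cg hf h0 h1 h2 k1 k2 k0, T8_cg hf h0 h1 h2 k2 k0 k1]
  sx := by
    intro x0 x1 x2 y0 y1 y2
    have h : ∀ z0 z1 z2, f (-x0) x1 x2 z0 z1 z2 = f x0 x1 x2 (-z0) z1 z2 := by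
      intro z0 z1 z2
      have := hf.sg x0 x1 x2 (-z0) z1 z2
      rwa [neg_neg] at this
    unfold Q T6 T8
    simp only [h, neg_neg]
    ring
  sy := by
    intro x0 x1 x2 y0 y1 y2
    unfold Q T6 T8
    simp only [neg_neg]
    ring
  x01 := by
    intro x0 x1 x2 y0 y1 y2
    have h : ∀ z0 z1 z2, f x1 x0 x2 z0 z1 z2 = f x0 x1 x2 z1 z0 z2 := fun z0 z1 z2 =>
      hf.s01 x0 x1 x2 z1 z0 z2
    unfold Q T6 T8
    simp only [h]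
    ring
  x12 := by
    intro x0 x1 x2 y0 y1 y2
    have h : ∀ z0 z1 z2, f x0 x2 x1 z0 z1 z2 = f x0 x1 x2 z0 z2 z1 := fun z0 z1 z2 =>
      hf.s12 x0 x1 x2 z0 z2 z1
    unfold Q T6 T8
    simp only [h]
    ring
  y01 := by
    intro x0 x1 x2 y0 y1 y2
    unfold Q T6 T8
    ring
  y12 := by
    intro x0 x1 x2 y0 y1 y2
    unfold Q T6 T8
    ring

/-! ### the classes -/

def nn (x0 x1 x2 : ℤ) : ℤ := x0 * x0 + x1 * x1 + x2 * x2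
def dd (x0 x1 x2 y0 y1 y2 : ℤ) : ℤ := x0 * y0 + x1 * y1 + x2 * y2

theorem mul12 {a a' b b' : ℤ} (h : a % 12 = a' % 12) (h' : b % 12 = b' % 12) :
    (a * b) % 12 = (a' * b') % 12 := by
  rw [Int.mul_emod, h, h', ← Int.mul_emod]

theorem sq24 {a a' : ℤ} (h : a % 12 = a' % 12) : (a * a) % 24 = (a' * a') % 24 := by
  obtain ⟨k, hk⟩ : ∃ k, a = a' + 12 * k := ⟨(a - a') / 12, by omega⟩
  subst hk
  have : (a' + 12 * k) * (a' + 12 * k) = a' * a' + 24 * (a' * k + 6 * k * k) := by ring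
  omega

theorem nn24 {x0 x1 x2 x0' x1' x2' : ℤ} (h0 : x0 % 12 = x0' % 12) (h1 : x1 % 12 = x1' % 12)
    (h2 : x2 % 12 = x2' % 12) : nn x0 x1 x2 % 24 = nn x0' x1' x2' % 24 := by
  have e0 := sq24 h0
  have e1 := sq24 h1
  have e2 := sq24 h2
  unfold nn
  omega

theorem dd12 {x0 x1 x2 y0 y1 y2 x0' x1' x2' y0' y1' y2' : ℤ}
    (h0 : x0 % 12 = x0' % 12) (h1 : x1 % 12 = x1' % 12) (h2 : x2 % 12 = x2' % 12)
    (k0 : y0 % 12 = y0' % 12) (k1 : y1 % 12 = y1' % 12) (k2 : y2 % 12 = y2' % 12) :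
    dd x0 x1 x2 y0 y1 y2 % 12 = dd x0' x1' x2' y0' y1' y2' % 12 := by
  have e0 := mul12 h0 k0
  have e1 := mul12 h1 k1
  have e2 := mul12 h2 k2
  unfold dd
  omega

/-- the classes of vectors -/
def Cl (x0 x1 x2 : ℤ) : Prop := (nn x0 x1 x2 % 8 = 3 ∨ nn x0 x1 x2 % 4 = 2) ∧
  nn x0 x1 x2 % 3 ≠ 1 ∧ ¬ (x0 % 3 = 0 ∧ x1 % 3 = 0 ∧ x2 % 3 = 0)

instance (x0 x1 x2 : ℤ) : Decidable (Cl x0 x1 x2) := by unfold Cl; infer_instance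

theorem Cl_cg {x0 x1 x2 x0' x1' x2' : ℤ} (h0 : x0 % 12 = x0' % 12) (h1 : x1 % 12 = x1' % 12)
    (h2 : x2 % 12 = x2' % 12) (h : Cl x0 x1 x2) : Cl x0' x1' x2' := by
  have e := nn24 h0 h1 h2
  unfold Cl at *
  omega

theorem Cl_neg {x0 x1 x2 : ℤ} (h : Cl x0 x1 x2) : Cl (-x0) x1 x2 := by
  have e : nn (-x0) x1 x2 = nn x0 x1 x2 := by unfold nn; ring
  unfold Cl at *
  rw [e]
  omega

theorem Cl_s01 {x0 x1 x2 : ℤ} (h : Cl x0 x1 x2) : Cl x1 x0 x2 := by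
  have e : nn x1 x0 x2 = nn x0 x1 x2 := by unfold nn; ring
  unfold Cl at *
  rw [e]
  omega

theorem Cl_s12 {x0 x1 x2 : ℤ} (h : Cl x0 x1 x2) : Cl x0 x2 x1 := by
  have e : nn x0 x2 x1 = nn x0 x1 x2 := by unfold nn; ring
  unfold Cl at *
  rw [e]
  omega

/-- representatives of the orbits -/
def reps : List (ℤ × ℤ × ℤ) := [(0, 1, 1), (0, 1, 5), (0, 5, 5), (1, 1, 1), (1, 1, 2), (1, 1, 3),
  (1, 1, 4), (1, 1, 5), (1, 1, 6), (1, 2, 3), (1, 2, 5), (1, 3, 4), (1, 3, 5), (1, 4, 5),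
  (1, 5, 5), (1, 5, 6), (2, 3, 5), (2, 5, 5), (3, 4, 5), (3, 5, 5), (4, 5, 5), (5, 5, 5),
  (5, 5, 6)]

theorem reps_all : ∀ i j k : Fin 7, Cl (i.val : ℤ) (j.val : ℤ) (k.val : ℤ) →
    ((i.val : ℤ), (j.val : ℤ), (k.val : ℤ)) ∈ reps ∨ ((j.val : ℤ), (i.val : ℤ), (k.val : ℤ)) ∈ reps ∨
    ((k.val : ℤ), (j.val : ℤ), (i.val : ℤ)) ∈ reps ∨ ((i.val : ℤ), (k.val : ℤ), (j.val : ℤ)) ∈ reps ∨
    ((j.val : ℤ), (k.val : ℤ), (i.val : ℤ)) ∈ reps ∨ ((k.val : ℤ), (i.val : ℤ), (j.val : ℤ)) ∈ reps := by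
  decide +kernel

/-- reduction to the representatives -/
theorem red1 (F : ℤ → ℤ → ℤ → Prop)
    (hcg : ∀ a b c a' b' c' : ℤ, a % 12 = a' % 12 → b % 12 = b' % 12 → c % 12 = c' % 12 →
      F a b c → F a' b' c')
    (hs : ∀ a b c, F a b c → F (-a) b c) (h01 : ∀ a b c, F a b c → F b a c)
    (h12 : ∀ a b c, F a b c → F a c b) (hR : ∀ r ∈ reps, F r.1 r.2.1 r.2.2) :
    ∀ a b c, Cl a b c → F a b c := by
  -- the statement including the class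
  have norm : ∀ a : ℤ, ∃ i : Fin 7, a % 12 = (i.val : ℤ) % 12 ∨ (-a) % 12 = (i.val : ℤ) % 12 := by
    intro a
    rcases le_or_gt (a % 12) 6 with h | h
    · refine ⟨⟨(a % 12).toNat, by omega⟩, Or.inl ?_⟩
      simp only
      omega
    · refine ⟨⟨((-a) % 12).toNat, by omega⟩, Or.inr ?_⟩
      simp only
      omega
  have step : ∀ a b c : ℤ, ∃ i : Fin 7, (Cl a b c → Cl (i.val : ℤ) b c) ∧
      (F (i.val : ℤ) b c → F a b c) := by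
    intro a b c
    obtain ⟨i, hi | hi⟩ := norm a
    · exact ⟨i, Cl_cg hi rfl rfl, hcg _ _ _ _ _ _ hi.symm rfl rfl⟩
    · refine ⟨i, fun h => Cl_cg hi rfl rfl (Cl_neg h), fun h => ?_⟩
      have := hs _ _ _ (hcg _ _ _ _ _ _ hi.symm rfl rfl h)
      rwa [neg_neg] at this
  intro a b c hc
  obtain ⟨i, hi1, hi2⟩ := step a b c
  obtain ⟨j, hj1, hj2⟩ := step b (i.val : ℤ) c
  obtain ⟨k, hk1, hk2⟩ := step c (i.val : ℤ) (j.val : ℤ)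
  have c1 := hi1 hc
  have c2 := Cl_s01 (hj1 (Cl_s01 c1))
  -- c2 : Cl i j c
  have c3 : Cl (k.val : ℤ) (i.val : ℤ) (j.val : ℤ) := hk1 (Cl_s01 (Cl_s12 c2))
  have c4 : Cl (i.val : ℤ) (j.val : ℤ) (k.val : ℤ) := Cl_s12 (Cl_s01 c3)
  have main : F (i.val : ℤ) (j.val : ℤ) (k.val : ℤ) := by
    rcases reps_all i j k c4 with h | h | h | h | h | h
    · exact hR _ h
    · exact h01 _ _ _ (hR _ h)
    · -- F k j i
      exact h01 _ _ _ (h12 _ _ _ (h01 _ _ _ (hR _ h)))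
    · exact h12 _ _ _ (hR _ h)
    · -- F j k i → F j i k → F i j k
      exact h01 _ _ _ (h12 _ _ _ (hR _ h))
    · -- F k i j → F i k j → F i j k
      exact h12 _ _ _ (h01 _ _ _ (hR _ h))
  -- back
  have m1 : F (k.val : ℤ) (i.val : ℤ) (j.val : ℤ) := h01 _ _ _ (h12 _ _ _ main)
  have m2 : F c (i.val : ℤ) (j.val : ℤ) := hk2 m1
  have m3 : F (i.val : ℤ) (j.val : ℤ) c := h12 _ _ _ (h01 _ _ _ m2)
  have m4 : F b (i.val : ℤ) c := hj2 (h01 _ _ _ m3)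
  exact hi2 (h01 _ _ _ m4)

theorem red (g h : F6) (hg : Inv2 g) (hh : Inv2 h)
    (hR : ∀ r ∈ reps, ∀ s ∈ reps, g r.1 r.2.1 r.2.2 s.1 s.2.1 s.2.2 =
      h r.1 r.2.1 r.2.2 s.1 s.2.1 s.2.2) :
    ∀ x0 x1 x2 y0 y1 y2 : ℤ, Cl x0 x1 x2 → Cl y0 y1 y2 → g x0 x1 x2 y0 y1 y2 = h x0 x1 x2 y0 y1 y2 := by
  intro x0 x1 x2 y0 y1 y2 hx hy
  refine red1 (fun a b c => g x0 x1 x2 a b c = h x0 x1 x2 a b c) ?_ ?_ ?_ ?_ ?_ y0 y1 y2 hy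
  · intro a b c a' b' c' h0 h1 h2 e
    rw [← hg.cg x0 x1 x2 a b c x0 x1 x2 a' b' c' rfl rfl rfl h0 h1 h2,
      ← hh.cg x0 x1 x2 a b c x0 x1 x2 a' b' c' rfl rfl rfl h0 h1 h2]
    exact e
  · intro a b c e
    rw [hg.sy, hh.sy]; exact e
  · intro a b c e
    rw [hg.y01, hh.y01]; exact e
  · intro a b c e
    rw [hg.y12, hh.y12]; exact e
  · intro s hs
    refine red1 (fun a b c => g a b c s.1 s.2.1 s.2.2 = h a b c s.1 s.2.1 s.2.2) ?_ ?_ ?_ ?_ ?_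
      x0 x1 x2 hx
    · intro a b c a' b' c' h0 h1 h2 e
      rw [← hg.cg a b c _ _ _ a' b' c' _ _ _ h0 h1 h2 rfl rfl rfl,
        ← hh.cg a b c _ _ _ a' b' c' _ _ _ h0 h1 h2 rfl rfl rfl]
      exact e
    · intro a b c e
      rw [hg.sx, hh.sx]; exact e
    · intro a b c e
      rw [hg.x01, hh.x01]; exact e
    · intro a b c e
      rw [hg.x12, hh.x12]; exact e
    · intro r hr
      exact hR r hr s hs

/-! ### the sums over the vectors -/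

theorem sum_T8 (n : ℤ) (f : ℤ → ℤ → ℤ → ℤ) :
    ∑ v ∈ vec n, T8 f (v 0) (v 1) (v 2) = 8 * ∑ v ∈ vec n, f (v 0) (v 1) (v 2) := by
  have h2 := sum_sign n ![-1, 1, 1] (by decide) (fun v => f (v 0) (v 1) (v 2))
  have h3 := sum_sign n ![1, -1, 1] (by decide) (fun v => f (v 0) (v 1) (v 2))
  have h4 := sum_sign n ![-1, -1, 1] (by decide) (fun v => f (v 0) (v 1) (v 2))
  have h5 := sum_sign n ![1, 1, -1] (by decide) (fun v => f (v 0) (v 1) (v 2))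
  have h6 := sum_sign n ![-1, 1, -1] (by decide) (fun v => f (v 0) (v 1) (v 2))
  have h7 := sum_sign n ![1, -1, -1] (by decide) (fun v => f (v 0) (v 1) (v 2))
  have h8 := sum_sign n ![-1, -1, -1] (by decide) (fun v => f (v 0) (v 1) (v 2))
  simp only [Matrix.cons_val_zero, Matrix.cons_val_one, Matrix.cons_val, one_mul, neg_mul]
    at h2 h3 h4 h5 h6 h7 h8
  unfold T8
  simp only [Finset.sum_add_distrib]
  rw [h2, h3, h4, h5, h6, h7, h8]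
  ring

theorem sum_T6 (n : ℤ) (f : ℤ → ℤ → ℤ → ℤ) :
    ∑ v ∈ vec n, T6 f (v 0) (v 1) (v 2) = 6 * ∑ v ∈ vec n, f (v 0) (v 1) (v 2) := by
  have key : ∀ i j k : Fin 3, (∃ e : Equiv.Perm (Fin 3), e 0 = i ∧ e 1 = j ∧ e 2 = k) →
      ∑ v ∈ vec n, f (v i) (v j) (v k) = ∑ v ∈ vec n, f (v 0) (v 1) (v 2) := by
    rintro i j k ⟨e, rfl, rfl, rfl⟩
    exact sum_perm n e (fun v => f (v 0) (v 1) (v 2))
  unfold T6
  simp only [Finset.sum_add_distrib]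
  rw [key 1 0 2 (by decide +kernel), key 2 1 0 (by decide +kernel), key 0 2 1 (by decide +kernel),
    key 1 2 0 (by decide +kernel), key 2 0 1 (by decide +kernel)]
  ring

/-- the sum over the pairs -/
noncomputable def SS (n1 n2 : ℤ) (f : F6) : ℤ :=
  ∑ q ∈ vec n1 ×ˢ vec n2, f (q.1 0) (q.1 1) (q.1 2) (q.2 0) (q.2 1) (q.2 2)

theorem SS_Q (n1 n2 : ℤ) (f : F6) : SS n1 n2 (Q f) = 48 * SS n1 n2 f := by
  unfold SS
  rw [Finset.sum_product, Finset.sum_product, Finset.mul_sum]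
  refine Finset.sum_congr rfl fun x _ => ?_
  have h := sum_T6 n2 (T8 (f (x 0) (x 1) (x 2)))
  have h' := sum_T8 n2 (f (x 0) (x 1) (x 2))
  show ∑ y ∈ vec n2, T6 (T8 (f (x 0) (x 1) (x 2))) (y 0) (y 1) (y 2) = _
  rw [h, h']
  ring

end Pool.Agent.N9.P24x
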