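import Pool.Agent.N9.P24x.Core

/-!
# P24x: the relation RELG
-/

set_option autoImplicit false

namespace Pool.Agent.N9.P24x

open Finset Matrix
open Pool.Agent.Z700 (V3 vec cp hh fac chi12)
open Pool.Agent.N877.P24

/-! ### the weights -/

def K2 : F6 := fun x0 x1 x2 y0 y1 y2 =>
  if nn x0 x1 x2 % 8 = 3 ∧ nn y0 y1 y2 % 8 = 3 then
    (if (x0 * y0 - x1 * y1) % 4 = 0 ∧ (x1 * y1 - x2 * y2) % 4 = 0 then 1 else 0)
  else if nn x0 x1 x2 % 8 = 3 ∨ nn y0 y1 y2 % 8 = 3 then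
    (if dd x0 x1 x2 y0 y1 y2 % 4 = 2 then 1 else 0)
  else if dd x0 x1 x2 y0 y1 y2 % 2 = 1 then 1
  else if nn x0 x1 x2 % 8 = nn y0 y1 y2 % 8 then (if dd x0 x1 x2 y0 y1 y2 % 4 = 2 then 2 else 0)
  else (if dd x0 x1 x2 y0 y1 y2 % 4 = 0 then 2 else 0)

def K3 : F6 := fun x0 x1 x2 y0 y1 y2 =>
  if nn x0 x1 x2 % 3 = 0 ∨ nn y0 y1 y2 % 3 = 0 then (if dd x0 x1 x2 y0 y1 y2 % 3 = 0 then 1 else 0)
  else if (nn x0 x1 x2 * nn y0 y1 y2 - dd x0 x1 x2 y0 y1 y2 ^ 2) % 3 = 0 then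
    (if (x0 + dd x0 x1 x2 y0 y1 y2 * y0) % 3 = 0 ∧ (x1 + dd x0 x1 x2 y0 y1 y2 * y1) % 3 = 0 ∧
      (x2 + dd x0 x1 x2 y0 y1 y2 * y2) % 3 = 0 then 2 else 1)
  else 0

def K : F6 := fun x0 x1 x2 y0 y1 y2 => K2 x0 x1 x2 y0 y1 y2 * K3 x0 x1 x2 y0 y1 y2

theorem K2_inv : Inv K2 where
  cg := by
    intro x0 x1 x2 y0 y1 y2 x0' x1' x2' y0' y1' y2' h0 h1 h2 k0 k1 k2
    have e1 := nn24 h0 h1 h2
    have e2 := nn24 k0 k1 k2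
    have e3 := dd12 h0 h1 h2 k0 k1 k2
    have p0 := mul12 h0 k0
    have p1 := mul12 h1 k1
    have p2 := mul12 h2 k2
    have a1 : nn x0 x1 x2 % 8 = nn x0' x1' x2' % 8 := by omega
    have a2 : nn y0 y1 y2 % 8 = nn y0' y1' y2' % 8 := by omega
    have a3 : dd x0 x1 x2 y0 y1 y2 % 4 = dd x0' x1' x2' y0' y1' y2' % 4 := by omega
    have a4 : dd x0 x1 x2 y0 y1 y2 % 2 = dd x0' x1' x2' y0' y1' y2' % 2 := by omega
    have a5 : (x0 * y0 - x1 * y1) % 4 = (x0' * y0' - x1' * y1') % 4 := by omega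
    have a6 : (x1 * y1 - x2 * y2) % 4 = (x1' * y1' - x2' * y2') % 4 := by omega
    unfold K2
    rw [a1, a2, a3, a4, a5, a6]
  sg := by
    intro x0 x1 x2 y0 y1 y2
    have e1 : nn (-x0) x1 x2 = nn x0 x1 x2 := by unfold nn; ring
    have e2 : nn (-y0) y1 y2 = nn y0 y1 y2 := by unfold nn; ring
    have e3 : dd (-x0) x1 x2 (-y0) y1 y2 = dd x0 x1 x2 y0 y1 y2 := by unfold dd; ring
    unfold K2
    rw [e1, e2, e3, neg_mul_neg]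
  s01 := by
    intro x0 x1 x2 y0 y1 y2
    have e1 : nn x1 x0 x2 = nn x0 x1 x2 := by unfold nn; ring
    have e2 : nn y1 y0 y2 = nn y0 y1 y2 := by unfold nn; ring
    have e3 : dd x1 x0 x2 y1 y0 y2 = dd x0 x1 x2 y0 y1 y2 := by unfold dd; ring
    have e4 : ((x1 * y1 - x0 * y0) % 4 = 0 ∧ (x0 * y0 - x2 * y2) % 4 = 0) ↔
        ((x0 * y0 - x1 * y1) % 4 = 0 ∧ (x1 * y1 - x2 * y2) % 4 = 0) := by omega
    unfold K2
    rw [e1, e2, e3]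
    simp only [e4]
  s12 := by
    intro x0 x1 x2 y0 y1 y2
    have e1 : nn x0 x2 x1 = nn x0 x1 x2 := by unfold nn; ring
    have e2 : nn y0 y2 y1 = nn y0 y1 y2 := by unfold nn; ring
    have e3 : dd x0 x2 x1 y0 y2 y1 = dd x0 x1 x2 y0 y1 y2 := by unfold dd; ring
    have e4 : ((x0 * y0 - x2 * y2) % 4 = 0 ∧ (x2 * y2 - x1 * y1) % 4 = 0) ↔
        ((x0 * y0 - x1 * y1) % 4 = 0 ∧ (x1 * y1 - x2 * y2) % 4 = 0) := by omega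
    unfold K2
    rw [e1, e2, e3]
    simp only [e4]

theorem K3_inv : Inv K3 where
  cg := by
    intro x0 x1 x2 y0 y1 y2 x0' x1' x2' y0' y1' y2' h0 h1 h2 k0 k1 k2
    have e1 := nn24 h0 h1 h2
    have e2 := nn24 k0 k1 k2
    have e3 := dd12 h0 h1 h2 k0 k1 k2
    have p0 := mul12 e3 k0
    have p1 := mul12 e3 k1
    have p2 := mul12 e3 k2
    have a1 : nn x0 x1 x2 % 3 = nn x0' x1' x2' % 3 := by omega
    have a2 : nn y0 y1 y2 % 3 = nn y0' y1' y2' % 3 := by omega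
    have a3 : dd x0 x1 x2 y0 y1 y2 % 3 = dd x0' x1' x2' y0' y1' y2' % 3 := by omega
    have a4 : (nn x0 x1 x2 * nn y0 y1 y2 - dd x0 x1 x2 y0 y1 y2 ^ 2) % 3 =
        (nn x0' x1' x2' * nn y0' y1' y2' - dd x0' x1' x2' y0' y1' y2' ^ 2) % 3 := by
      rw [pow_two, pow_two]
      have b1 : (nn x0 x1 x2 * nn y0 y1 y2) % 3 = (nn x0' x1' x2' * nn y0' y1' y2') % 3 := by
        rw [Int.mul_emod, a1, a2, ← Int.mul_emod]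
      have b2 : (dd x0 x1 x2 y0 y1 y2 * dd x0 x1 x2 y0 y1 y2) % 3 =
          (dd x0' x1' x2' y0' y1' y2' * dd x0' x1' x2' y0' y1' y2') % 3 := by
        rw [Int.mul_emod, a3, ← Int.mul_emod]
      omega
    have a5 : (x0 + dd x0 x1 x2 y0 y1 y2 * y0) % 3 = (x0' + dd x0' x1' x2' y0' y1' y2' * y0') % 3 := by
      omega
    have a6 : (x1 + dd x0 x1 x2 y0 y1 y2 * y1) % 3 = (x1' + dd x0' x1' x2' y0' y1' y2' * y1') % 3 := by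
      omega
    have a7 : (x2 + dd x0 x1 x2 y0 y1 y2 * y2) % 3 = (x2' + dd x0' x1' x2' y0' y1' y2' * y2') % 3 := by
      omega
    unfold K3
    rw [a1, a2, a3, a4, a5, a6, a7]
  sg := by
    intro x0 x1 x2 y0 y1 y2
    have e1 : nn (-x0) x1 x2 = nn x0 x1 x2 := by unfold nn; ring
    have e2 : nn (-y0) y1 y2 = nn y0 y1 y2 := by unfold nn; ring
    have e3 : dd (-x0) x1 x2 (-y0) y1 y2 = dd x0 x1 x2 y0 y1 y2 := by unfold dd; ring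
    unfold K3
    rw [e1, e2, e3]
    have e4 : (-x0 + dd x0 x1 x2 y0 y1 y2 * -y0) % 3 = 0 ↔
        (x0 + dd x0 x1 x2 y0 y1 y2 * y0) % 3 = 0 := by
      rw [mul_neg]
      omega
    simp only [e4]
  s01 := by
    intro x0 x1 x2 y0 y1 y2
    have e1 : nn x1 x0 x2 = nn x0 x1 x2 := by unfold nn; ring
    have e2 : nn y1 y0 y2 = nn y0 y1 y2 := by unfold nn; ring
    have e3 : dd x1 x0 x2 y1 y0 y2 = dd x0 x1 x2 y0 y1 y2 := by unfold dd; ring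
    unfold K3
    rw [e1, e2, e3]
    have e4 : ((x1 + dd x0 x1 x2 y0 y1 y2 * y1) % 3 = 0 ∧ (x0 + dd x0 x1 x2 y0 y1 y2 * y0) % 3 = 0 ∧
        (x2 + dd x0 x1 x2 y0 y1 y2 * y2) % 3 = 0) ↔
        ((x0 + dd x0 x1 x2 y0 y1 y2 * y0) % 3 = 0 ∧ (x1 + dd x0 x1 x2 y0 y1 y2 * y1) % 3 = 0 ∧
        (x2 + dd x0 x1 x2 y0 y1 y2 * y2) % 3 = 0) := by tauto
    simp only [e4]
  s12 := by
    intro x0 x1 x2 y0 y1 y2
    have e1 : nn x0 x2 x1 = nn x0 x1 x2 := by unfold nn; ring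
    have e2 : nn y0 y2 y1 = nn y0 y1 y2 := by unfold nn; ring
    have e3 : dd x0 x2 x1 y0 y2 y1 = dd x0 x1 x2 y0 y1 y2 := by unfold dd; ring
    unfold K3
    rw [e1, e2, e3]
    have e4 : ((x0 + dd x0 x1 x2 y0 y1 y2 * y0) % 3 = 0 ∧ (x2 + dd x0 x1 x2 y0 y1 y2 * y2) % 3 = 0 ∧
        (x1 + dd x0 x1 x2 y0 y1 y2 * y1) % 3 = 0) ↔
        ((x0 + dd x0 x1 x2 y0 y1 y2 * y0) % 3 = 0 ∧ (x1 + dd x0 x1 x2 y0 y1 y2 * y1) % 3 = 0 ∧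
        (x2 + dd x0 x1 x2 y0 y1 y2 * y2) % 3 = 0) := by tauto
    simp only [e4]

theorem K_inv : Inv K where
  cg := by
    intro x0 x1 x2 y0 y1 y2 x0' x1' x2' y0' y1' y2' h0 h1 h2 k0 k1 k2
    unfold K
    rw [K2_inv.cg _ _ _ _ _ _ _ _ _ _ _ _ h0 h1 h2 k0 k1 k2,
      K3_inv.cg _ _ _ _ _ _ _ _ _ _ _ _ h0 h1 h2 k0 k1 k2]
  sg := by
    intro x0 x1 x2 y0 y1 y2
    unfold K
    rw [K2_inv.sg, K3_inv.sg]
  s01 := by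
    intro x0 x1 x2 y0 y1 y2
    unfold K
    rw [K2_inv.s01, K3_inv.s01]
  s12 := by
    intro x0 x1 x2 y0 y1 y2
    unfold K
    rw [K2_inv.s12, K3_inv.s12]

/-! ### the targets -/

/-- invariant functions of one vector -/
structure Inv1 (f : ℤ → ℤ → ℤ → ℤ) : Prop where
  cg : ∀ x0 x1 x2 x0' x1' x2' : ℤ, x0 % 12 = x0' % 12 → x1 % 12 = x1' % 12 →
    x2 % 12 = x2' % 12 → f x0 x1 x2 = f x0' x1' x2'
  sx : ∀ x0 x1 x2 : ℤ, f (-x0) x1 x2 = f x0 x1 x2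
  x01 : ∀ x0 x1 x2 : ℤ, f x1 x0 x2 = f x0 x1 x2
  x12 : ∀ x0 x1 x2 : ℤ, f x0 x2 x1 = f x0 x1 x2

theorem Inv1.two {f g : ℤ → ℤ → ℤ → ℤ} (hf : Inv1 f) (hg : Inv1 g) (H : ℤ → ℤ → ℤ → ℤ → ℤ)
    {f' g' : ℤ → ℤ → ℤ → ℤ} (hf' : Inv1 f') (hg' : Inv1 g') :
    Inv2 (fun x0 x1 x2 y0 y1 y2 => H (f x0 x1 x2) (g y0 y1 y2) (f' x0 x1 x2) (g' y0 y1 y2)) where
  cg := by
    intro x0 x1 x2 y0 y1 y2 x0' x1' x2' y0' y1' y2' h0 h1 h2 k0 k1 k2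
    rw [hf.cg _ _ _ _ _ _ h0 h1 h2, hg.cg _ _ _ _ _ _ k0 k1 k2, hf'.cg _ _ _ _ _ _ h0 h1 h2,
      hg'.cg _ _ _ _ _ _ k0 k1 k2]
  sx := by intro x0 x1 x2 y0 y1 y2; simp only [hf.sx, hf'.sx]
  sy := by intro x0 x1 x2 y0 y1 y2; simp only [hg.sx, hg'.sx]
  x01 := by intro x0 x1 x2 y0 y1 y2; rw [hf.x01, hf'.x01]
  x12 := by intro x0 x1 x2 y0 y1 y2; rw [hf.x12, hf'.x12]
  y01 := by intro x0 x1 x2 y0 y1 y2; rw [hg.x01, hg'.x01]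
  y12 := by intro x0 x1 x2 y0 y1 y2; rw [hg.x12, hg'.x12]

def RF (x0 x1 x2 : ℤ) : ℤ :=
  (if nn x0 x1 x2 % 8 = 3 then 1 else 2) * (if nn x0 x1 x2 % 3 = 0 then 1 else 2)

def psi' (x0 x1 x2 : ℤ) : ℤ := (if x0 % 3 = 0 then 1 else chi12 x0) *
  (if x1 % 3 = 0 then 1 else chi12 x1) * (if x2 % 3 = 0 then 1 else chi12 x2)

def phi' (x0 x1 x2 : ℤ) : ℤ :=
  -(chi12 x0 * chi12 x1 + chi12 x1 * chi12 x2 + chi12 x0 * chi12 x2)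

def psiE' (x0 x1 x2 : ℤ) : ℤ := (if x0 % 2 = 0 then 1 else chi12 x0) *
  (if x1 % 2 = 0 then 1 else chi12 x1) * (if x2 % 2 = 0 then 1 else chi12 x2)

def CF (x0 x1 x2 : ℤ) : ℤ :=
  if nn x0 x1 x2 % 8 = 3 then
    (if nn x0 x1 x2 % 3 = 0 then -phi' x0 x1 x2 else -(2 * psi' x0 x1 x2))
  else (if nn x0 x1 x2 % 8 = 2 then 1 else -1) *
    (if nn x0 x1 x2 % 3 = 0 then 2 * psiE' x0 x1 x2 else -(4 * psiE' x0 x1 x2))

theorem chi_cg {a b : ℤ} (h : a % 12 = b % 12) : chi12 a = chi12 b := by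
  unfold Pool.Agent.Z700.chi12
  rw [h]

theorem chi_neg (a : ℤ) : chi12 (-a) = chi12 a := by
  unfold Pool.Agent.Z700.chi12
  have h1 : ((-a) % 12 = 1 ∨ (-a) % 12 = 11) ↔ (a % 12 = 1 ∨ a % 12 = 11) := by omega
  have h2 : ((-a) % 12 = 5 ∨ (-a) % 12 = 7) ↔ (a % 12 = 5 ∨ a % 12 = 7) := by omega
  simp only [h1, h2]

theorem neg3 (a : ℤ) : ((-a) % 3 = 0) ↔ (a % 3 = 0) := by omega
theorem neg2 (a : ℤ) : ((-a) % 2 = 0) ↔ (a % 2 = 0) := by omega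

theorem nn_neg (x0 x1 x2 : ℤ) : nn (-x0) x1 x2 = nn x0 x1 x2 := by unfold nn; ring
theorem nn_01 (x0 x1 x2 : ℤ) : nn x1 x0 x2 = nn x0 x1 x2 := by unfold nn; ring
theorem nn_12 (x0 x1 x2 : ℤ) : nn x0 x2 x1 = nn x0 x1 x2 := by unfold nn; ring

theorem RF_inv : Inv1 RF where
  cg := by
    intro x0 x1 x2 x0' x1' x2' h0 h1 h2
    have e := nn24 h0 h1 h2
    have a1 : nn x0 x1 x2 % 8 = nn x0' x1' x2' % 8 := by omega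
    have a2 : nn x0 x1 x2 % 3 = nn x0' x1' x2' % 3 := by omega
    unfold RF
    rw [a1, a2]
  sx := by intro x0 x1 x2; unfold RF; rw [nn_neg]
  x01 := by intro x0 x1 x2; unfold RF; rw [nn_01]
  x12 := by intro x0 x1 x2; unfold RF; rw [nn_12]

theorem N8_inv : Inv1 (fun x0 x1 x2 => nn x0 x1 x2 % 8) where
  cg := by
    intro x0 x1 x2 x0' x1' x2' h0 h1 h2
    have e := nn24 h0 h1 h2
    omega
  sx := by intro x0 x1 x2; rw [nn_neg]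
  x01 := by intro x0 x1 x2; rw [nn_01]
  x12 := by intro x0 x1 x2; rw [nn_12]

theorem N3_inv : Inv1 (fun x0 x1 x2 => nn x0 x1 x2 % 3) where
  cg := by
    intro x0 x1 x2 x0' x1' x2' h0 h1 h2
    have e := nn24 h0 h1 h2
    omega
  sx := by intro x0 x1 x2; rw [nn_neg]
  x01 := by intro x0 x1 x2; rw [nn_01]
  x12 := by intro x0 x1 x2; rw [nn_12]

theorem CF_inv : Inv1 CF where
  cg := by
    intro x0 x1 x2 x0' x1' x2' h0 h1 h2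
    have e := nn24 h0 h1 h2
    have a1 : nn x0 x1 x2 % 8 = nn x0' x1' x2' % 8 := by omega
    have a2 : nn x0 x1 x2 % 3 = nn x0' x1' x2' % 3 := by omega
    have b0 : x0 % 3 = x0' % 3 := by omega
    have b1 : x1 % 3 = x1' % 3 := by omega
    have b2 : x2 % 3 = x2' % 3 := by omega
    have c0 : x0 % 2 = x0' % 2 := by omega
    have c1 : x1 % 2 = x1' % 2 := by omega
    have c2 : x2 % 2 = x2' % 2 := by omega
    unfold CF phi' psi' psiE'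
    rw [a1, a2, chi_cg h0, chi_cg h1, chi_cg h2, b0, b1, b2, c0, c1, c2]
  sx := by
    intro x0 x1 x2
    unfold CF phi' psi' psiE'
    simp only [nn_neg, chi_neg, neg3, neg2]
  x01 := by
    intro x0 x1 x2
    have h1 : phi' x1 x0 x2 = phi' x0 x1 x2 := by unfold phi'; ring
    have h2 : psi' x1 x0 x2 = psi' x0 x1 x2 := by unfold psi'; ring
    have h3 : psiE' x1 x0 x2 = psiE' x0 x1 x2 := by unfold psiE'; ring
    unfold CF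
    rw [nn_01, h1, h2, h3]
  x12 := by
    intro x0 x1 x2
    have h1 : phi' x0 x2 x1 = phi' x0 x1 x2 := by unfold phi'; ring
    have h2 : psi' x0 x2 x1 = psi' x0 x1 x2 := by unfold psi'; ring
    have h3 : psiE' x0 x2 x1 = psiE' x0 x1 x2 := by unfold psiE'; ring
    unfold CF
    rw [nn_12, h1, h2, h3]

/-! ### the pointwise identities -/

theorem pt_K : ∀ r ∈ reps, ∀ s ∈ reps, Q K r.1 r.2.1 r.2.2 s.1 s.2.1 s.2.2 =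
    3 * RF r.1 r.2.1 r.2.2 * RF s.1 s.2.1 s.2.2 + CF r.1 r.2.1 r.2.2 * CF s.1 s.2.1 s.2.2 := by
  decide +kernel

theorem pt_K2 : ∀ r ∈ reps, ∀ s ∈ reps, Q K2 r.1 r.2.1 r.2.2 s.1 s.2.1 s.2.2 =
    (if nn r.1 r.2.1 r.2.2 % 8 = 3 ∧ nn s.1 s.2.1 s.2.2 % 8 = 3 then 12
      else if nn r.1 r.2.1 r.2.2 % 8 = 3 ∨ nn s.1 s.2.1 s.2.2 % 8 = 3 then 24 else 48) := by
  decide +kernel

theorem pt_K3 : ∀ r ∈ reps, ∀ s ∈ reps, Q K3 r.1 r.2.1 r.2.2 s.1 s.2.1 s.2.2 =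
    (if nn r.1 r.2.1 r.2.2 % 3 = 0 ∧ nn s.1 s.2.1 s.2.2 % 3 = 0 then 12
      else if nn r.1 r.2.1 r.2.2 % 3 = 0 ∨ nn s.1 s.2.1 s.2.2 % 3 = 0 then 24 else 48) := by
  decide +kernel

theorem all_K {x0 x1 x2 y0 y1 y2 : ℤ} (hx : Cl x0 x1 x2) (hy : Cl y0 y1 y2) :
    Q K x0 x1 x2 y0 y1 y2 = 3 * RF x0 x1 x2 * RF y0 y1 y2 + CF x0 x1 x2 * CF y0 y1 y2 :=
  red (Q K) (fun x0 x1 x2 y0 y1 y2 => 3 * RF x0 x1 x2 * RF y0 y1 y2 + CF x0 x1 x2 * CF y0 y1 y2)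
    (Q_inv K_inv) (Inv1.two RF_inv RF_inv (fun a b c d => 3 * a * b + c * d) CF_inv CF_inv) pt_K
    x0 x1 x2 y0 y1 y2 hx hy

theorem all_K2 {x0 x1 x2 y0 y1 y2 : ℤ} (hx : Cl x0 x1 x2) (hy : Cl y0 y1 y2) :
    Q K2 x0 x1 x2 y0 y1 y2 = (if nn x0 x1 x2 % 8 = 3 ∧ nn y0 y1 y2 % 8 = 3 then 12
      else if nn x0 x1 x2 % 8 = 3 ∨ nn y0 y1 y2 % 8 = 3 then 24 else 48) :=
  red (Q K2) (fun x0 x1 x2 y0 y1 y2 => (if nn x0 x1 x2 % 8 = 3 ∧ nn y0 y1 y2 % 8 = 3 then 12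
      else if nn x0 x1 x2 % 8 = 3 ∨ nn y0 y1 y2 % 8 = 3 then 24 else 48))
    (Q_inv K2_inv) (Inv1.two N8_inv N8_inv (fun a b _ _ => if a = 3 ∧ b = 3 then 12
      else if a = 3 ∨ b = 3 then 24 else 48) N8_inv N8_inv) pt_K2
    x0 x1 x2 y0 y1 y2 hx hy

theorem all_K3 {x0 x1 x2 y0 y1 y2 : ℤ} (hx : Cl x0 x1 x2) (hy : Cl y0 y1 y2) :
    Q K3 x0 x1 x2 y0 y1 y2 = (if nn x0 x1 x2 % 3 = 0 ∧ nn y0 y1 y2 % 3 = 0 then 12
      else if nn x0 x1 x2 % 3 = 0 ∨ nn y0 y1 y2 % 3 = 0 then 24 else 48) :=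
  red (Q K3) (fun x0 x1 x2 y0 y1 y2 => (if nn x0 x1 x2 % 3 = 0 ∧ nn y0 y1 y2 % 3 = 0 then 12
      else if nn x0 x1 x2 % 3 = 0 ∨ nn y0 y1 y2 % 3 = 0 then 24 else 48))
    (Q_inv K3_inv) (Inv1.two N3_inv N3_inv (fun a b _ _ => if a = 0 ∧ b = 0 then 12
      else if a = 0 ∨ b = 0 then 24 else 48) N3_inv N3_inv) pt_K3
    x0 x1 x2 y0 y1 y2 hx hy

end Pool.Agent.N9.P24x
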